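import Pool.Agent.H64.XS.Stm

/-!
# Project XS (helper64), module RD1 (helper66)
-/

set_option autoImplicit false

namespace Pool.Agent.H66.XS

open Pool.Agent.Q130.TR Pool.Agent.H64.XS

lemma hs_mono {F F' : ℕ → ℕ → ℂ} (hF : HS F) (h : ∀ a b, ‖F' a b‖ ≤ ‖F a b‖) : HS F' := by
  refine Summable.of_nonneg_of_le (fun p => by positivity) (fun p => ?_) hF
  gcongr
  exact h _ _

lemma sq_col {F : ℕ → ℕ → ℂ} (hF : HS F) (i : ℕ) : Sq fun l => F l i :=
  hF.comp_injective (i := fun l : ℕ => (l, i)) (fun _ _ h => (Prod.mk.inj h).1)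

lemma sq_mono {c d : ℕ → ℂ} (hc : Sq c) (h : ∀ l, ‖d l‖ ≤ ‖c l‖) : Sq d := by
  refine Summable.of_nonneg_of_le (fun p => by positivity) (fun p => ?_) hc
  gcongr
  exact h _

/-- unit vector -/
noncomputable def sg (i j : ℕ) : ℂ := if j = i then 1 else 0

lemma sg_ne {i j : ℕ} (h : j ≠ i) : sg i j = 0 := if_neg h

lemma sg_self (i : ℕ) : sg i i = 1 := if_pos rfl

lemma sq_single (i : ℕ) : Sq (sg i) := by
  unfold Sq
  refine summable_of_ne_finset_zero (s := {i}) fun j hj => ?_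
  rw [Finset.mem_singleton] at hj
  rw [sg_ne hj]
  simp

lemma act_zero_row {F' : ℕ → ℕ → ℂ} {l : ℕ} (c : ℕ → ℂ) (h : ∀ j, F' l j = 0) :
    act F' c l = 0 := by
  unfold act
  have : (fun j => F' l j * c j) = fun _ => 0 := by
    funext j
    rw [h j, zero_mul]
  rw [this, tsum_zero]

lemma act_zero {F' : ℕ → ℕ → ℂ} {l : ℕ} {c : ℕ → ℂ} (h : ∀ j, c j = 0) :
    act F' c l = 0 := by
  unfold act
  have : (fun j => F' l j * c j) = fun _ => 0 := by
    funext j
    rw [h j, mul_zero]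
  rw [this, tsum_zero]

lemma act_add_single (hL : S_L2B) {F : ℕ → ℕ → ℂ} (hF : HS F) {c : ℕ → ℂ} (hc : Sq c) (i l : ℕ) :
    act F (fun j => c j + sg i j) l = act F c l + F l i := by
  unfold act
  have hs1 : Summable fun j => F l j * c j := (hL.2.2.1 F c hF hc).1 l
  have hs2 : HasSum (fun j => F l j * sg i j) (F l i * sg i i) :=
    hasSum_single (f := fun j => F l j * sg i j) i (fun j hj => by
      show F l j * sg i j = 0
      rw [sg_ne hj, mul_zero])
  have hs3 : (fun j => F l j * (c j + sg i j)) = fun j => F l j * c j + F l j * sg i j := by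
    funext j; rw [mul_add]
  rw [hs3, hs1.tsum_add hs2.summable, hs2.tsum_eq, sg_self, mul_one]

lemma hin {F F' : ℕ → ℕ → ℂ} {J : Set ℕ} (hin : ∀ a ∈ J, ∀ b ∈ J, F' a b = F a b) (c : ℕ → ℂ)
    (hc : ∀ l, l ∉ J → c l = 0) : ∀ l ∈ J, act F c l = act F' c l := by
  intro l hl
  unfold act
  refine tsum_congr fun j => ?_
  by_cases hj : j ∈ J
  · rw [hin l hl j hj]
  · rw [hc j hj, mul_zero, mul_zero]

/-- the statement with an abstract truncation -/
lemma core (hL : S_L2B) (hF : S_FRD) (F F' : ℕ → ℕ → ℂ) (J : Set ℕ) (hFS : HS F) (hF'S : HS F')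
    (hi1 : ∀ a ∈ J, ∀ b ∈ J, F' a b = F a b) (hi2 : ∀ a, a ∉ J → ∀ b, F' a b = 0)
    (b : ℕ → ℂ) (i : ℕ) (hi : i ∉ J) (hbS : Sq b) (hb1 : ∀ l ∈ J, b l = F l i)
    (hb2 : ∀ l, l ∉ J → b l = 0)
    (hyp : ∀ c, Sq c → (∀ i ∈ J, c i = act F c i) → ∀ i ∈ J, c i = 0) :
    ∀ k ∈ J, F k i = 0 := by
  intro k hk
  have hout : ∀ (c : ℕ → ℂ) (l : ℕ), l ∉ J → act F' c l = 0 :=
    fun c l hl => act_zero_row c (hi2 l hl)
  have hinj : ∀ c, Sq c → (∀ i, c i = act F' c i) → ∀ j, c j = 0 := by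
    intro c hc hci
    have h0 : ∀ l, l ∉ J → c l = 0 := fun l hl => by rw [hci l, hout c l hl]
    have h1 : ∀ l ∈ J, c l = 0 := hyp c hc fun l hl => by
      rw [hin hi1 c h0 l hl]
      exact hci l
    intro j
    by_cases hj : j ∈ J
    · exact h1 j hj
    · exact h0 j hj
  obtain ⟨c', hc'S, hc'⟩ := (hF F' hF'S hinj).2.1 b hbS
  have hc'0 : ∀ l, l ∉ J → c' l = 0 := by
    intro l hl
    have h := hc' l
    rw [hout c' l hl, sub_zero, hb2 l hl] at h
    exact h
  have hcS : Sq fun j => c' j + sg i j := (hL.1 c' _ hc'S (sq_single i)).1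
  have hsol : ∀ l ∈ J, c' l + sg i l = act F (fun j => c' j + sg i j) l := by
    intro l hl
    have hli : l ≠ i := fun h => hi (h ▸ hl)
    have h2 := hc' l
    rw [hb1 l hl] at h2
    rw [sg_ne hli, add_zero, act_add_single hL hFS hc'S i l, hin hi1 c' hc'0 l hl, ← h2]
    ring
  have hzero : ∀ l ∈ J, c' l = 0 := by
    intro l hl
    have h := hyp _ hcS hsol l hl
    have hli : l ≠ i := fun h => hi (h ▸ hl)
    have h' : c' l + sg i l = 0 := h
    rw [sg_ne hli, add_zero] at h'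
    exact h'
  have hc'z : ∀ l, c' l = 0 := fun l => by
    by_cases hl : l ∈ J
    · exact hzero l hl
    · exact hc'0 l hl
  have h3 := hc' k
  rw [hb1 k hk, hc'z k, act_zero hc'z, sub_zero] at h3
  exact h3.symm

open Classical in
/-- RD1 -/
theorem rd1 (hL : S_L2B) (hF : S_FRD) : S_RD1 := by
  intro F J hFS hyp k hk i hi
  refine core hL hF F (fun a b => if a ∈ J ∧ b ∈ J then F a b else 0) J hFS
    (hs_mono hFS fun a b => ?_) (fun a ha b hb => if_pos ⟨ha, hb⟩)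
    (fun a ha b => if_neg fun h => ha h.1) (fun l => if l ∈ J then F l i else 0) i hi
    (sq_mono (sq_col hFS i) fun l => ?_) (fun l hl => if_pos hl) (fun l hl => if_neg hl) hyp k hk
  · show ‖if a ∈ J ∧ b ∈ J then F a b else 0‖ ≤ ‖F a b‖
    split_ifs with h
    · exact le_rfl
    · simp
  · show ‖if l ∈ J then F l i else 0‖ ≤ ‖F l i‖
    split_ifs with h
    · exact le_rfl
    · simp

end Pool.Agent.H66.XS
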